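import Mathlib

set_option autoImplicit false

open Filter Topology Set
open scoped Pointwise

namespace Pool.Agent.H290Z.Rs

variable {F : Type} [Group F]

/-- the sequence `t` with its first `n` entries replaced by `1` -/
def tail (n : ℕ) (t : ℕ → F) : ℕ → F := fun i => if i < n then 1 else t i

/-- Gluing: if all tails of all `T`-valued sequences tend to `1`, they do so uniformly. -/
theorem glue (τ : TopologicalSpace (ℕ → F)) (hτ : @IsTopologicalGroup (ℕ → F) τ _) (T : Set F)
    (hT : ∀ t : ℕ → F, (∀ i, t i ∈ T) → Tendsto (fun n => tail n t) atTop (@nhds _ τ 1))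
    (V : Set (ℕ → F)) (hV : V ∈ @nhds _ τ 1) :
    ∃ n : ℕ, ∀ t : ℕ → F, (∀ i, t i ∈ T) → (∀ i < n, t i = 1) → t ∈ V := by
  classical
  let _ := τ
  obtain ⟨U, hU, hUV⟩ := exists_nhds_one_split hV
  obtain ⟨W0, hW0, hWU⟩ := exists_nhds_split_inv hU
  set W := W0 ∩ U with hW
  have hWn : W ∈ 𝓝 (1 : ℕ → F) := inter_mem hW0 hU
  by_contra hcon
  push Not at hcon
  have step : ∀ n : ℕ, ∃ N : ℕ, ∃ t : ℕ → F, n < N ∧ (∀ i, t i ∈ T) ∧
      tail n t / tail N t ∉ U := by
    intro n
    obtain ⟨t, ht1, ht2, ht3⟩ := hcon n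
    obtain ⟨N, hN1, hN2⟩ := (((hT t ht1).eventually hWn).and (eventually_gt_atTop n)).exists
    refine ⟨N, t, hN2, ht1, fun h => ht3 ?_⟩
    have e : tail n t = t := by
      funext i
      unfold tail
      split_ifs with hi
      · exact (ht2 i hi).symm
      · rfl
    have := hUV _ h _ hN1.2
    rwa [div_mul_cancel, e] at this
  choose N s hN hs hbad using step
  set b : ℕ → ℕ := fun k => N^[k] 0 with hb
  have hbs : ∀ k, b (k + 1) = N (b k) := fun k => Function.iterate_succ_apply' N k 0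
  have hbm : StrictMono b := strictMono_nat_of_lt_succ fun k => by rw [hbs]; exact hN _
  have hex : ∀ i, ∃ k, i < b (k + 1) := fun i =>
    ⟨i, lt_of_lt_of_le (Nat.lt_succ_self i) (hbm.id_le (i + 1))⟩
  set t : ℕ → F := fun i => s (b (Nat.find (hex i))) i with ht
  have htT : ∀ i, t i ∈ T := fun i => hs _ i
  have hlim := ((hT t htT).comp hbm.tendsto_atTop).eventually hW0
  obtain ⟨k, hk⟩ := eventually_atTop.1 hlim
  have h1 : tail (b k) t / tail (b (k + 1)) t ∈ U := hWU _ (hk k le_rfl) _ (hk (k + 1) (by omega))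
  apply hbad (b k)
  convert h1 using 1
  rw [← hbs]
  funext i
  simp only [Pi.div_apply, tail]
  have hlt : b k < b (k + 1) := hbm (Nat.lt_succ_self k)
  by_cases h2 : i < b k
  · rw [if_pos h2, if_pos (h2.trans hlt), if_pos h2, if_pos (h2.trans hlt)]
  · by_cases h3 : i < b (k + 1)
    · rw [if_neg h2, if_pos h3, if_neg h2, if_pos h3]
      have : Nat.find (hex i) = k := by
        rw [Nat.find_eq_iff]
        refine ⟨h3, fun j hj hij => h2 (lt_of_lt_of_le hij (hbm.monotone (by omega)))⟩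
      simp only [ht, this]
    · rw [if_neg h2, if_neg h3, if_neg h2, if_neg h3, div_self', div_self']

theorem glue_pow (τ : TopologicalSpace (ℕ → F)) (hτ : @IsTopologicalGroup (ℕ → F) τ _) (T : Set F)
    (h1 : (1 : F) ∈ T)
    (hT : ∀ t : ℕ → F, (∀ i, t i ∈ T) → Tendsto (fun n => tail n t) atTop (@nhds _ τ 1))
    (k : ℕ) : ∀ V ∈ @nhds _ τ 1,
    ∃ n : ℕ, ∀ t : ℕ → F, (∀ i, t i ∈ T ^ k) → (∀ i < n, t i = 1) → t ∈ V := by
  classical
  let _ := τ
  induction k with
  | zero =>
    intro V hV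
    refine ⟨0, fun t ht _ => ?_⟩
    have : t = 1 := by
      funext i
      simpa using ht i
    rw [this]
    exact mem_of_mem_nhds hV
  | succ k ih =>
    intro V hV
    obtain ⟨U, hU, hUV⟩ := exists_nhds_one_split hV
    obtain ⟨n1, hn1⟩ := ih U hU
    obtain ⟨n2, hn2⟩ := glue τ hτ T hT U hU
    refine ⟨max n1 n2, fun t ht ht1 => ?_⟩
    have : ∀ i, ∃ y z : F, y ∈ T ^ k ∧ z ∈ T ∧ y * z = t i ∧ (t i = 1 → y = 1 ∧ z = 1) := by
      intro i
      by_cases hi : t i = 1
      · exact ⟨1, 1, Set.one_mem_pow h1, h1, by rw [hi, one_mul], fun _ => ⟨rfl, rfl⟩⟩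
      · have := ht i
        rw [pow_succ] at this
        obtain ⟨y, hy, z, hz, e⟩ := this
        exact ⟨y, z, hy, hz, e, fun h => (hi h).elim⟩
    choose y z hy hz hyz h0 using this
    have e : t = y * z := by
      funext i
      exact (hyz i).symm
    rw [e]
    refine hUV _ (hn1 y hy fun i hi => ?_) _ (hn2 z hz fun i hi => ?_)
    · exact (h0 i (ht1 i (lt_of_lt_of_le hi (le_max_left _ _)))).1
    · exact (h0 i (ht1 i (lt_of_lt_of_le hi (le_max_right _ _)))).2

/-- the commutators with `a` -/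
def comms (a : F) : Set F := {x | ∃ g : F, x = g * a * g⁻¹ * a⁻¹}

lemma one_mem_comms (a : F) : (1 : F) ∈ comms a := ⟨1, by simp⟩

lemma exists_pow_comms [Finite F] [IsSimpleGroup F] (a c : F) (hac : c * a ≠ a * c) :
    ∃ k : ℕ, ∀ x : F, x ∈ comms a ^ k := by
  have hnormal : (Subgroup.closure (comms a)).Normal := by
    constructor
    intro x hx h
    induction hx using Subgroup.closure_induction with
    | mem x hx =>
      obtain ⟨g, rfl⟩ := hx
      have e : h * (g * a * g⁻¹ * a⁻¹) * h⁻¹ =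
          ((h * g) * a * (h * g)⁻¹ * a⁻¹) * (h * a * h⁻¹ * a⁻¹)⁻¹ := by group
      rw [e]
      exact mul_mem (Subgroup.subset_closure ⟨h * g, rfl⟩)
        (inv_mem (Subgroup.subset_closure ⟨h, rfl⟩))
    | one => simp
    | mul x y _ _ hx hy =>
      have e : h * (x * y) * h⁻¹ = (h * x * h⁻¹) * (h * y * h⁻¹) := by group
      rw [e]
      exact mul_mem hx hy
    | inv x _ hx =>
      have e : h * x⁻¹ * h⁻¹ = (h * x * h⁻¹)⁻¹ := by group
      rw [e]
      exact inv_mem hx
  have htop : Subgroup.closure (comms a) = ⊤ := by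
    rcases hnormal.eq_bot_or_eq_top with h | h
    · exfalso
      have : c * a * c⁻¹ * a⁻¹ ∈ Subgroup.closure (comms a) := Subgroup.subset_closure ⟨c, rfl⟩
      rw [h, Subgroup.mem_bot] at this
      apply hac
      calc c * a = (c * a * c⁻¹ * a⁻¹) * (a * c) := by group
        _ = a * c := by rw [this, one_mul]
    · exact h
  have hpow : ∀ x : F, ∃ k : ℕ, x ∈ comms a ^ k := by
    intro x
    have hx : x ∈ Subgroup.closure (comms a) := htop ▸ Subgroup.mem_top x
    induction hx using Subgroup.closure_induction with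
    | mem x hx => exact ⟨1, by simpa using hx⟩
    | one => exact ⟨0, by simp⟩
    | mul x y _ _ hx hy =>
      obtain ⟨k, hk⟩ := hx
      obtain ⟨l, hl⟩ := hy
      exact ⟨k + l, by rw [pow_add]; exact Set.mul_mem_mul hk hl⟩
    | inv x _ hx =>
      obtain ⟨k, hk⟩ := hx
      have ho : 0 < orderOf x := orderOf_pos x
      have e : x⁻¹ = x ^ (orderOf x - 1) := by
        rw [inv_eq_iff_mul_eq_one, ← pow_succ', Nat.sub_add_cancel ho, pow_orderOf_eq_one]
      refine ⟨k * (orderOf x - 1), ?_⟩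
      rw [e, pow_mul]
      exact Set.pow_mem_pow hk
  choose k hk using hpow
  obtain ⟨K, hK⟩ := (Set.finite_range k).bddAbove
  exact ⟨K, fun x => Set.pow_subset_pow_right (one_mem_comms a) (hK ⟨x, rfl⟩) (hk x)⟩

/-- Every group topology on `F ^ ℕ` in which the tails of the constant sequence `a` tend to `1`
has every neighbourhood of `1` containing a tail subgroup. -/
theorem nhds_contains_tail [Finite F] [IsSimpleGroup F] (a c : F) (hac : c * a ≠ a * c)
    (τ : TopologicalSpace (ℕ → F)) (hτ : @IsTopologicalGroup (ℕ → F) τ _)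
    (hu : Tendsto (fun n => tail n (fun _ => a)) atTop (@nhds _ τ 1)) :
    ∀ V ∈ @nhds _ τ 1, ∃ n : ℕ, ∀ t : ℕ → F, (∀ i < n, t i = 1) → t ∈ V := by
  let _ := τ
  obtain ⟨k, hk⟩ := exists_pow_comms a c hac
  intro V hV
  have hT : ∀ t : ℕ → F, (∀ i, t i ∈ comms a) →
      Tendsto (fun n => tail n t) atTop (𝓝 1) := by
    intro t ht
    choose g hg using ht
    have h1 : Tendsto (fun n => g * tail n (fun _ => a) * g⁻¹ * (tail n (fun _ => a))⁻¹) atTop
        (𝓝 (g * 1 * g⁻¹ * 1⁻¹)) :=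
      ((tendsto_const_nhds.mul hu).mul tendsto_const_nhds).mul hu.inv
    simp only [mul_one, mul_inv_cancel, inv_one] at h1
    convert h1 using 2 with n
    funext i
    simp only [tail, Pi.mul_apply, Pi.inv_apply]
    split_ifs
    · simp
    · exact hg i
  obtain ⟨n, hn⟩ := glue_pow τ hτ (comms a) (one_mem_comms a) hT k V hV
  exact ⟨n, fun t ht => hn t (fun i => hk _) ht⟩

end Pool.Agent.H290Z.Rs
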